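import Pool.Agent.Helper57.TA.Sc
import Pool.Agent.Helper62.UR.Lc

/-! Exact entropy calculus: the constants `2 ^ (-r n)`, division of small functions by them; the ring of literal
functions, inverses of literal functions on events; functions which are not invertible are small on an event. -/

set_option autoImplicit false

namespace Pool.Agent.Helper32.BF2

open Finset Filter Topology Pool.Agent.Helper69.RK Pool.Agent.Helper31.EC Pool.Agent.Helper82.TP
open Pool.Agent.Helper57.TA (sc scT ev_scT)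
open Pool.Agent.Helper62.UR (clip_sub clip_id lit_rest)

noncomputable section

open Sp QS

variable {S : Sp}

theorem lit_sc {β : ℕ → Type} (V : ∀ k, (S.F k).Ω → β k) (a : ℝ) : Lit V (sc S a) :=
  ⟨scT S a, rfl, Eventually.of_forall fun _ _ _ _ _ _ _ => rfl⟩

theorem rest_sc (E : ∀ k, (S.F k).Ω → Prop) (hE : 0 < ul (S.pr E)) (a : ℝ) :
    QS.rest E hE (sc S a) = sc (S.rest E) a := rfl

/-- digits of scaled functions -/
theorem dg_sc_mul (g : QS S) {a r : ℝ} (ha : 0 ≤ a) (h : a + r ≤ 1) : dg (sc S a * g) (a + r) = dg g r := by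
  obtain ⟨G, rfl⟩ := mk_surj g
  unfold sc
  rw [← map_mul, dg_mk _ h, dg_mk _ (by linarith)]
  show io (fun k ω => cell (S.dl (a + r) k) ((TR.vec fun _ : Fin 1 => scT S a * G).v k ω)) =
    io (fun k ω => cell (S.dl r k) ((TR.vec fun _ : Fin 1 => G).v k ω))
  congr 1
  funext k ω i
  show ⌊S.dl (max a 0) k * TR.ev G k ω / S.dl (a + r) k⌋ = ⌊TR.ev G k ω / S.dl r k⌋
  rw [max_eq_left ha, S.dl_add]
  congr 1
  have h1 := (S.dl_pos a k).ne'
  have h2 := (S.dl_pos r k).ne'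
  field_simp

/-- small literal functions are scaled literal functions -/
theorem exists_div {β : ℕ → Type} {V : ∀ k, (S.F k).Ω → β k} {f : QS S} {r : ℝ} (h0 : 0 ≤ r) (hr : r ≤ 1)
    (hf : f ∈ Id S r) (hV : Lit V f) : ∃ g : QS S, f = sc S r * g ∧ Lit V g := by
  obtain ⟨F, rfl, hF⟩ := hV
  rw [mk_mem_Id hr] at hf
  obtain ⟨E, K, hE, hK, hh⟩ := hf
  let g : TR S := ⟨fun k ω => max (-(K k)) (min (K k) (TR.ev F k ω / S.dl r k)), K, hK, by
    filter_upwards [hK.1] with k hk ω _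
    rw [abs_le]
    exact ⟨le_max_left _ _, max_le (by linarith) (min_le_left _ _)⟩⟩
  refine ⟨mk g, ?_, g, rfl, ?_⟩
  · unfold sc
    rw [← map_mul, mk_eq]
    apply TR.Te.ag
    refine ⟨E, hE, ?_⟩
    filter_upwards [hh] with k hk ω h1 h2
    have h3 := hk ω h1 h2
    rw [TR.ev_zero, sub_zero] at h3
    have h4 := S.dl_pos r k
    rw [TR.ev_mul, ev_scT h0]
    show TR.ev F k ω = S.dl r k * max (-(K k)) (min (K k) (TR.ev F k ω / S.dl r k))
    have h5 : max (-(K k)) (min (K k) (TR.ev F k ω / S.dl r k)) = TR.ev F k ω / S.dl r k := by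
      apply clip_id
      rw [abs_div, abs_of_pos h4, div_le_iff₀ h4]
      exact h3
    rw [h5]
    field_simp
  · filter_upwards [hF] with k hk ω ω' h1 h2 h3 h4
    show max (-(K k)) (min (K k) (TR.ev F k ω / S.dl r k)) = max (-(K k)) (min (K k) (TR.ev F k ω' / S.dl r k))
    rw [hk ω ω' h1 h2 h3 h4]

theorem lit_self (f : QS S) : Lit (β := fun k => (S.F k).Ω) (fun _ ω => ω) f := by
  obtain ⟨F, rfl⟩ := mk_surj f
  exact ⟨F, rfl, Eventually.of_forall fun k ω ω' _ _ _ h => by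
    have h1 : ω = ω' := h
    rw [h1]⟩

theorem exists_div' {f : QS S} {r : ℝ} (h0 : 0 ≤ r) (hr : r ≤ 1) (hf : f ∈ Id S r) : ∃ g : QS S, f = sc S r * g := by
  obtain ⟨g, hg, _⟩ := exists_div h0 hr hf (lit_self f)
  exact ⟨g, hg⟩

/-- the ring of literal functions -/
def LR {β : ℕ → Type} (V : ∀ k, (S.F k).Ω → β k) : Subring (QS S) where
  carrier := {f | Lit V f}
  mul_mem' := fun {_ _} hf hg => Lit.mul hf hg
  one_mem' := ⟨1, map_one _, Eventually.of_forall fun _ _ _ _ _ _ _ => rfl⟩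
  add_mem' := fun {_ _} hf hg => Lit.add hf hg
  zero_mem' := ⟨0, map_zero _, Eventually.of_forall fun _ _ _ _ _ _ _ => rfl⟩
  neg_mem' := fun {_} hf => Lit.neg hf

theorem mem_LR {β : ℕ → Type} {V : ∀ k, (S.F k).Ω → β k} {f : QS S} : f ∈ LR V ↔ Lit V f := Iff.rfl

theorem LR_mono {β γ : ℕ → Type} {V : ∀ k, (S.F k).Ω → β k} {W : ∀ k, (S.F k).Ω → γ k}
    (h : ∀ k ω ω', W k ω = W k ω' → V k ω = V k ω') : LR V ≤ LR W := fun _ hf =>
  Lit.of_fun hf (Eventually.of_forall fun k ω ω' _ _ _ e => h k ω ω' e)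

/-- inverses of literal functions on an event are literal -/
theorem lit_inv {β : ℕ → Type} {V : ∀ k, (S.F k).Ω → β k} (E : ∀ k, (S.F k).Ω → Prop) (hE : 0 < ul (S.pr E))
    {a : QS S} (ha : Lit V a) (hu : IsUnit (QS.rest E hE a)) :
    ∃ u : QS S, Lit V u ∧ QS.rest E hE u * QS.rest E hE a = 1 := by
  obtain ⟨A, rfl, hA⟩ := ha
  rw [QS.rest_mk, isUnit_mk] at hu
  obtain ⟨K, hK, hT⟩ := hu
  refine ⟨mk (TR.rinv A K hK), ⟨TR.rinv A K hK, rfl, ?_⟩, ?_⟩
  · filter_upwards [hA] with k hk ω ω' h1 h2 h3 h4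
    have h5 := hk ω ω' h1 h2 h3 h4
    show (if 1 ≤ K k * |TR.ev A k ω| then (TR.ev A k ω)⁻¹ else 0) =
      (if 1 ≤ K k * |TR.ev A k ω'| then (TR.ev A k ω')⁻¹ else 0)
    rw [h5]
  · rw [QS.rest_mk, QS.rest_mk, ← map_mul, ← map_one QS.mk, mk_eq]
    exact (TR.rinv_mul (TR.rest E A) K hK hT).ag 1

theorem mass_rest (F : FSp) (E A : F.Ω → Prop) (h0 : F.pb E ≠ 0) :
    mass (res (F.restμ E) fun ω => ¬ A ω) = (F.pb E)⁻¹ * mass (res F.μ fun ω => ¬ (E ω → A ω)) := by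
  rw [F.restμ_eq E h0]
  unfold mass
  rw [Finset.mul_sum]
  apply Finset.sum_congr rfl
  intro ω _
  by_cases h2 : A ω
  · rw [res_neg _ (fun ω => ¬ A ω) ω (fun hc => hc h2),
      res_neg _ (fun ω => ¬ (E ω → A ω)) ω (fun hc => hc fun _ => h2), mul_zero]
  · rw [res_pos _ (fun ω => ¬ A ω) ω h2]
    by_cases h3 : E ω
    · rw [res_pos _ (fun ω => ¬ (E ω → A ω)) ω (fun hc => h2 (hc h3)), res_pos _ E ω h3]
    · rw [res_neg _ (fun ω => ¬ (E ω → A ω)) ω (fun hc => hc fun h4 => absurd h4 h3), res_neg _ E ω h3]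

/-- typical events of a restricted space -/
theorem typ_rest_iff (E : ∀ k, (S.F k).Ω → Prop) (hE : 0 < ul (S.pr E)) {A : ∀ k, (S.F k).Ω → Prop} :
    Typ (S := S.rest E) A ↔ Typ (S := S) (fun k ω => E k ω → A k ω) := by
  have h0 := ul_tendsto (UB_pr E)
  have e0 : ∀ k, S.pr E k ≠ 0 → mass (res ((S.rest E).F k).μ (fun ω => ¬ A k ω)) =
      (S.pr E k)⁻¹ * mass (res (S.F k).μ (fun ω => ¬ (E k ω → A k ω))) := fun k hk =>
    mass_rest (S.F k) (E k) (A k) hk
  constructor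
  · intro h
    have h1 : Tendsto (fun k => S.pr E k * mass (res ((S.rest E).F k).μ (fun ω => ¬ A k ω))) UF (𝓝 (ul (S.pr E) * 0)) :=
      h0.mul h
    rw [mul_zero] at h1
    refine h1.congr' ?_
    filter_upwards [h0.eventually (lt_mem_nhds (half_lt_self hE))] with k hk
    have h2 : S.pr E k ≠ 0 := (lt_trans (half_pos hE) hk).ne'
    rw [e0 k h2, mul_inv_cancel_left₀ h2]
  · intro h
    have h1 : Tendsto (fun k => (S.pr E k)⁻¹ * mass (res (S.F k).μ (fun ω => ¬ (E k ω → A k ω)))) UF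
        (𝓝 ((ul (S.pr E))⁻¹ * 0)) := (h0.inv₀ hE.ne').mul h
    rw [mul_zero] at h1
    refine h1.congr' ?_
    filter_upwards [h0.eventually (lt_mem_nhds (half_lt_self hE))] with k hk
    have h2 : S.pr E k ≠ 0 := (lt_trans (half_pos hE) hk).ne'
    rw [e0 k h2]

/-- small functions on an event -/
theorem rest_mem_iff (E : ∀ k, (S.F k).Ω → Prop) (hE : 0 < ul (S.pr E)) (F : TR S) (r : ℝ) :
    QS.rest E hE (mk F) ∈ Id (S.rest E) r ↔
      ∀ δ : ℝ, 0 < δ → Typ (fun k ω => E k ω → |TR.ev F k ω| ≤ S.dl (min r 1 - δ) k) := by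
  rw [QS.rest_mk, mk_mem_Id', TR.ag_iff_levels]
  constructor
  · intro h δ hδ
    rw [← typ_rest_iff E hE]
    refine (h δ hδ).mono (Eventually.of_forall fun k ω _ hω => ?_)
    rw [TR.ev_zero, sub_zero] at hω
    exact hω
  · intro h δ hδ
    have h1 := h δ hδ
    rw [← typ_rest_iff E hE] at h1
    refine h1.mono (Eventually.of_forall fun k ω _ hω => ?_)
    rw [TR.ev_zero, sub_zero]
    exact hω

/-- small functions stay small on smaller events -/
theorem mem_sub {E E1 : ∀ k, (S.F k).Ω → Prop} (hE : 0 < ul (S.pr E)) (hE1 : 0 < ul (S.pr E1))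
    (hs : ∀ k ω, E1 k ω → E k ω) {f : QS S} {r : ℝ} (hf : QS.rest E hE f ∈ Id (S.rest E) r) :
    QS.rest E1 hE1 f ∈ Id (S.rest E1) r := by
  obtain ⟨F, rfl⟩ := mk_surj f
  rw [rest_mem_iff] at hf ⊢
  intro δ hδ
  exact (hf δ hδ).mono (Eventually.of_forall fun k ω _ h h1 => h (hs k ω h1))

/-- a function is invertible on an event or small on a smaller event -/
theorem unit_or_small (E : ∀ k, (S.F k).Ω → Prop) (hE : 0 < ul (S.pr E)) (f : QS S) :
    IsUnit (QS.rest E hE f) ∨ ∃ (b : ℝ) (E1 : ∀ k, (S.F k).Ω → Prop) (hE1 : 0 < ul (S.pr E1)), 0 < b ∧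
      (∀ k ω, E1 k ω → E k ω) ∧ QS.rest E1 hE1 f ∈ Id (S.rest E1) b := by
  by_cases hu : IsUnit (QS.rest E hE f)
  · exact Or.inl hu
  right
  obtain ⟨F, rfl⟩ := mk_surj f
  rw [QS.rest_mk, isUnit_mk] at hu
  have h1 : ∃ δ : ℝ, 0 < δ ∧ ¬ Typ (S := S.rest E) (fun k ω => S.dl δ k ≤ |TR.ev F k ω|) := by
    by_contra hc
    push Not at hc
    exact hu (nd_of_levels hc)
  obtain ⟨δ, hδ, hT⟩ := h1
  rw [typ_rest_iff E hE] at hT
  have hE1 : 0 < ul (S.pr fun k ω => ¬ (E k ω → S.dl δ k ≤ |TR.ev F k ω|)) := (typ_or _).resolve_left hT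
  refine ⟨δ, _, hE1, hδ, fun k ω h => ?_, ?_⟩
  · by_contra hc
    exact h fun h2 => absurd h2 hc
  · rw [rest_mem_iff]
    intro ε hε
    apply Typ_true.mono
    refine Eventually.of_forall fun k ω _ _ h => ?_
    have h2 : |TR.ev F k ω| < S.dl δ k := by
      by_contra hc
      exact h fun _ => not_lt.mp hc
    refine h2.le.trans (S.dl_anti ?_ k)
    have := min_le_left δ 1
    linarith

end

end Pool.Agent.Helper32.BF2
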