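import Mathlib.Algebra.MvPolynomial.PDeriv
import Mathlib.Algebra.MvPolynomial.CommRing
import Mathlib.RingTheory.Ideal.Operations

/-! Second order expansion of polynomials; solving a polynomial relation for one coordinate up to second order. -/

set_option autoImplicit false

namespace Pool.Agent.Helper32.BF2

open MvPolynomial

/-- first and second order expansion modulo an ideal -/
theorem taylor {A : Type*} [CommRing A] {n : ℕ} (J : Ideal A) (x q : Fin n → A) (h : ∀ i, x i - q i ∈ J)
    (g : MvPolynomial (Fin n) A) :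
    eval x g - eval q g ∈ J ∧ eval x g - eval q g - ∑ i, eval q (pderiv i g) * (x i - q i) ∈ J * J := by
  induction g using MvPolynomial.induction_on with
  | C a =>
    simp only [eval_C, sub_self, pderiv_C, map_zero, zero_mul, Finset.sum_const_zero]
    exact ⟨J.zero_mem, (J * J).zero_mem⟩
  | add p r hp hr =>
    refine ⟨?_, ?_⟩
    · have h1 := J.add_mem hp.1 hr.1
      rw [map_add, map_add]
      refine (Eq.mp (congrArg (· ∈ _) ?_) h1)
      ring
    · have h1 := (J * J).add_mem hp.2 hr.2
      simp only [map_add, add_mul, Finset.sum_add_distrib]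
      refine (Eq.mp (congrArg (· ∈ _) ?_) h1)
      ring
  | mul_X p j hp =>
    have e1 : ∑ i, eval q (pderiv i (p * X j)) * (x i - q i) =
        q j * ∑ i, eval q (pderiv i p) * (x i - q i) + eval q p * (x j - q j) := by
      have e2 : ∀ i, eval q (pderiv i (p * X j)) * (x i - q i) =
          q j * (eval q (pderiv i p) * (x i - q i)) + (if i = j then eval q p * (x i - q i) else 0) := by
        intro i
        rw [Derivation.leibniz, smul_eq_mul, smul_eq_mul, pderiv_X, map_add, map_mul, map_mul, eval_X]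
        by_cases hij : i = j
        · subst hij
          rw [if_pos rfl, Pi.single_eq_same, map_one]
          ring
        · rw [if_neg hij, Pi.single_eq_of_ne (Ne.symm hij), map_zero]
          ring
      simp only [e2, Finset.sum_add_distrib, ← Finset.mul_sum, Finset.sum_ite_eq', Finset.mem_univ, if_true]
    rw [e1]
    simp only [map_mul, eval_X]
    refine ⟨?_, ?_⟩
    · have h1 := J.add_mem (J.mul_mem_right (x j) hp.1) (J.mul_mem_left (eval q p) (h j))
      refine (Eq.mp (congrArg (· ∈ _) ?_) h1)
      ring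
    · have h1 := (J * J).add_mem (Ideal.mul_mem_mul hp.1 (h j)) ((J * J).mul_mem_left (q j) hp.2)
      refine (Eq.mp (congrArg (· ∈ _) ?_) h1)
      ring

/-- a polynomial relation `R = g(x)` solved for the third coordinate, up to second order -/
theorem solve {A : Type*} [CommRing A] (J J2 : Ideal A) (hJ : J * J ≤ J2) (x q : Fin 3 → A)
    (h : ∀ i, x i - q i ∈ J) (g : MvPolynomial (Fin 3) A) (R u : A) (hs : R - eval x g ∈ J2)
    (hu : 1 - u * eval q (pderiv 2 g) ∈ J2) :
    x 2 - (q 2 - u * (eval q g - eval q (pderiv 0 g) * q 0 - eval q (pderiv 1 g) * q 1) +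
      (-(u * eval q (pderiv 0 g))) * x 0 + (-(u * eval q (pderiv 1 g))) * x 1 + u * R) ∈ J2 := by
  have h1 := hJ (taylor J x q h g).2
  rw [Fin.sum_univ_three] at h1
  have h2 := J2.add_mem (J2.mul_mem_left (-u) hs) (J2.mul_mem_left (-u) h1)
  have e : x 2 - (q 2 - u * (eval q g - eval q (pderiv 0 g) * q 0 - eval q (pderiv 1 g) * q 1) +
      (-(u * eval q (pderiv 0 g))) * x 0 + (-(u * eval q (pderiv 1 g))) * x 1 + u * R) =
      (-u * (R - eval x g) + -u * (eval x g - eval q g - (eval q (pderiv 0 g) * (x 0 - q 0) +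
        eval q (pderiv 1 g) * (x 1 - q 1) + eval q (pderiv 2 g) * (x 2 - q 2)))) +
        (1 - u * eval q (pderiv 2 g)) * (x 2 - q 2) := by ring
  rw [e]
  exact J2.add_mem h2 (J2.mul_mem_right _ hu)

/-- values and derivatives of polynomials with coefficients in a subring -/
theorem pderiv_coeff_mem {A : Type*} [CommRing A] {n : ℕ} {s : Subring A} {g : MvPolynomial (Fin n) A}
    (hg : ∀ m, g.coeff m ∈ s) (i : Fin n) (m : Fin n →₀ ℕ) : (pderiv i g).coeff m ∈ s := by
  rw [coeff_pderiv]
  apply s.mul_mem (hg _)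
  apply s.add_mem _ s.one_mem
  exact natCast_mem s _

theorem eval_coeff_mem {A : Type*} [CommRing A] {n : ℕ} {s : Subring A} {g : MvPolynomial (Fin n) A}
    (hg : ∀ m, g.coeff m ∈ s) {x : Fin n → A} (hx : ∀ i, x i ∈ s) : eval x g ∈ s :=
  eval_mem (fun m _ => hg m) hx

/-- polynomials with congruent coefficients have congruent values -/
theorem eval_congr_mod {A : Type*} [CommRing A] {n : ℕ} (J : Ideal A) {g g' : MvPolynomial (Fin n) A}
    (h : ∀ m, g.coeff m - g'.coeff m ∈ J) (x : Fin n → A) : eval x g - eval x g' ∈ J := by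
  rw [← map_sub, eval_eq]
  apply J.sum_mem
  intro m _
  apply J.mul_mem_right
  rw [coeff_sub]
  exact h m

theorem pderiv_congr_mod {A : Type*} [CommRing A] {n : ℕ} (J : Ideal A) {g g' : MvPolynomial (Fin n) A}
    (h : ∀ m, g.coeff m - g'.coeff m ∈ J) (i : Fin n) (m : Fin n →₀ ℕ) :
    (pderiv i g).coeff m - (pderiv i g').coeff m ∈ J := by
  rw [coeff_pderiv, coeff_pderiv, ← sub_mul]
  exact J.mul_mem_right _ (h _)

/-- inverses of congruent elements are congruent -/
theorem inv_congr_mod {A : Type*} [CommRing A] (J : Ideal A) {a b u w : A} (h : a - b ∈ J) (hu : 1 - u * a ∈ J)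
    (hw : 1 - w * b ∈ J) : u - w ∈ J := by
  have e : u - w = u * (1 - w * b) - w * (1 - u * a) - (u * w) * (a - b) := by ring
  rw [e]
  exact J.sub_mem (J.sub_mem (J.mul_mem_left _ hw) (J.mul_mem_left _ hu)) (J.mul_mem_left _ h)

theorem mul_congr_mod {A : Type*} [CommRing A] (J : Ideal A) {a b c d : A} (h : a - b ∈ J) (h' : c - d ∈ J) :
    a * c - b * d ∈ J := by
  have e : a * c - b * d = (a - b) * c + b * (c - d) := by ring
  rw [e]
  exact J.add_mem (J.mul_mem_right _ h) (J.mul_mem_left _ h')

theorem sub_congr_mod {A : Type*} [CommRing A] (J : Ideal A) {a b c d : A} (h : a - b ∈ J) (h' : c - d ∈ J) :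
    (a - c) - (b - d) ∈ J := by
  have e : (a - c) - (b - d) = (a - b) - (c - d) := by ring
  rw [e]
  exact J.sub_mem h h'

theorem neg_congr_mod {A : Type*} [CommRing A] (J : Ideal A) {a b : A} (h : a - b ∈ J) : -a - -b ∈ J := by
  have e : -a - -b = -(a - b) := by ring
  rw [e]
  exact J.neg_mem h

end Pool.Agent.Helper32.BF2
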