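import Pool.Agent.Helper31.NSB.St

/-! Polynomials with given coefficients. -/

set_option autoImplicit false

namespace Pool.Agent.Helper32.BF2

open Pool.Agent.Helper69.RK Pool.Agent.Helper31.EC Pool.Agent.Helper82.TP Pool.Agent.Helper31.NSB
open Pool.Agent.Helper57.TA (sc)
open Pool.Agent.Helper3.LF (Mon)

noncomputable section

open Sp QS

/-! ### polynomials with given coefficients -/

section pol

variable {A : Type*} [CommRing A] {N D : ℕ}

/-- the polynomial with the coefficients `c` -/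
def cpol (c : Mon N D → A) : MvPolynomial (Fin N) A := ∑ a, MvPolynomial.monomial a.ex (c a)

theorem cpol_eval (c : Mon N D → A) (g : Fin N → A) :
    MvPolynomial.eval g (cpol c) = ∑ a, c a * ∏ i, g i ^ (a.1 i : ℕ) := by
  unfold cpol
  rw [map_sum]
  refine Finset.sum_congr rfl fun a _ => ?_
  rw [MvPolynomial.eval_monomial, Finsupp.prod_fintype _ _ (fun _ => pow_zero _)]
  rfl

theorem cpol_coeff (c : Mon N D → A) (m : Fin N →₀ ℕ) :
    (cpol c).coeff m = ∑ a : Mon N D, if a.ex = m then c a else 0 := by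
  unfold cpol
  rw [MvPolynomial.coeff_sum]
  refine Finset.sum_congr rfl fun a _ => ?_
  rw [MvPolynomial.coeff_monomial]

theorem cpol_mem {B : Subring A} {c : Mon N D → A} (h : ∀ a, c a ∈ B) (m : Fin N →₀ ℕ) : (cpol c).coeff m ∈ B := by
  rw [cpol_coeff]
  refine B.sum_mem fun a _ => ?_
  split_ifs
  · exact h a
  · exact B.zero_mem

theorem cpol_congr {J : Ideal A} {c c' : Mon N D → A} (h : ∀ a, c a - c' a ∈ J) (m : Fin N →₀ ℕ) :
    (cpol c).coeff m - (cpol c').coeff m ∈ J := by
  rw [cpol_coeff, cpol_coeff, ← Finset.sum_sub_distrib]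
  refine J.sum_mem fun a _ => ?_
  split_ifs
  · exact h a
  · rw [sub_zero]
    exact J.zero_mem

/-- values of polynomials of bounded degree -/
theorem eval_mon (q : MvPolynomial (Fin N) A) (hq : q.totalDegree ≤ D) (g : Fin N → A) :
    MvPolynomial.eval g q = ∑ a : Mon N D, q.coeff a.ex * ∏ i, g i ^ (a.1 i : ℕ) := by
  classical
  have hinj : Function.Injective (Mon.ex : Mon N D → Fin N →₀ ℕ) := by
    intro a b h
    apply Subtype.ext
    funext i
    apply Fin.ext
    exact DFunLike.congr_fun h i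
  rw [MvPolynomial.eval_eq']
  have h2 : ∑ a : Mon N D, q.coeff a.ex * ∏ i, g i ^ (a.1 i : ℕ) =
      ∑ s ∈ Finset.univ.image (Mon.ex : Mon N D → Fin N →₀ ℕ), q.coeff s * ∏ i, g i ^ s i :=
    (Finset.sum_image (f := fun s : Fin N →₀ ℕ => q.coeff s * ∏ i, g i ^ s i) (fun a _ b _ h => hinj h)).symm
  rw [h2]
  refine Finset.sum_subset ?_ ?_
  · intro s hs
    have h3 : (s.sum fun _ e => e) ≤ D := (MvPolynomial.le_totalDegree hs).trans hq
    rw [Finsupp.sum_fintype _ _ (fun _ => rfl)] at h3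
    have h4 : ∀ i, s i < D + 1 := fun i =>
      Nat.lt_succ_of_le ((Finset.single_le_sum (f := fun i => s i) (fun _ _ => Nat.zero_le _)
        (Finset.mem_univ i)).trans h3)
    refine Finset.mem_image.2 ⟨⟨fun i => ⟨s i, h4 i⟩, h3⟩, Finset.mem_univ _, ?_⟩
    ext i
    rfl
  · intro s _ hs
    rw [MvPolynomial.notMem_support_iff.1 hs, zero_mul]

end pol

end

end Pool.Agent.Helper32.BF2
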