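import Pool.Agent.Helper32.BF2.Sc
import Pool.Agent.Helper32.BF2.Alg
import Pool.Agent.Helper32.BF2.Def

/-! The corner of case B in box coordinates: fullness of `R` over the label and the base point; `R` is not a function
of few digits of `z` over them. -/

set_option autoImplicit false

namespace Pool.Agent.Helper32.BF2

open Finset Filter Topology Pool.Agent.Helper69.RK Pool.Agent.Helper31.EC Pool.Agent.Helper82.TP
open Pool.Agent.Helper31.NSB
open Pool.Agent.Helper57.TA (sc)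

noncomputable section

open Sp QS

variable {S : Sp}

/-- fullness of one coordinate -/
theorem full_R {H : RD S} {f : FR S} {w1 w : ℝ} {Sc : Set ℝ} (hc : C0 H f w1 w Sc) {s : ℝ} (hs : s ∈ Sc)
    (h2 : w1 * s ≤ 1) (E : ∀ k, (S.F k).Ω → Prop) (hE : 0 < ul (S.pr E)) {r : ℝ} (hr1 : r ≤ 1) :
    r - w1 * s ≤ h (restL E hE (dg H.R r)) (restL E hE (H.κ s ⊔ H.q)) := by
  have n0 := hc.nn s hs
  have hs1 : s ≤ 1 := by nlinarith [hc.hw1]
  have a1 := hc.full s hs h2 S (Pj.id S) E hE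
  rw [Pj.id_map, Pj.id_map] at a1
  have a2 : restL E hE H.M = restL E hE H.q ⊔ restL E hE (dg H.R 1) := by
    rw [← restL_sup]
    rfl
  rw [a2, h_chain] at a1
  have b1 : ∀ x : QS S, ∀ x0 : QS S, x - x0 ∈ Id S s → Lit (H.K s) x0 → ∀ A : (S.rest E).L,
      h (restL E hE (dg x 1)) (A ⊔ restL E hE (H.κ s)) ≤ 1 - s := by
    intro x x0 hx hx0 A
    have c1 : dg x s ≤ H.κ s := dg_le_of_sub hx le_rfl hs1 (hx0.dg_le (hc.bdd s hs) hs1)
    have c2 : h (restL E hE (dg x 1)) (restL E hE (dg x s)) ≤ 1 - s := by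
      rw [← QS.rest_dg, ← QS.rest_dg]
      exact h_dg_dg _ hs1
    refine (h_anti ?_).trans c2
    exact (restL_mono E hE c1).trans le_sup_right
  have a3 : h (restL E hE H.q) (restL E hE (H.κ s)) ≤ 2 - 2 * s := by
    have c1 := b1 H.t (f.t0 s) (hc.ft s hs).1 (hc.lt s hs).1 ⊥
    have c2 := b1 H.y (f.y0 s) (hc.fy s hs).1 (hc.lt s hs).2 (restL E hE (dg H.t 1))
    rw [bot_sup_eq] at c1
    have c3 : restL E hE H.q = restL E hE (dg H.t 1) ⊔ restL E hE (dg H.y 1) := by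
      rw [← restL_sup]
      rfl
    rw [c3, h_chain]
    linarith
  have a4 : h (restL E hE (dg H.R 1)) (restL E hE H.q ⊔ restL E hE (H.κ s)) ≤
      h (restL E hE (dg H.R r)) (restL E hE (H.κ s ⊔ H.q)) + (1 - r) := by
    rw [restL_sup, sup_comm (restL E hE (H.κ s))]
    have c1 := h_triangle (restL E hE (dg H.R 1)) (restL E hE (dg H.R r)) (restL E hE H.q ⊔ restL E hE (H.κ s))
    have c2 : h (restL E hE (dg H.R 1)) (restL E hE (dg H.R r) ⊔ (restL E hE H.q ⊔ restL E hE (H.κ s))) ≤ 1 - r := by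
      refine (h_anti le_sup_left).trans ?_
      rw [← QS.rest_dg, ← QS.rest_dg]
      exact h_dg_dg _ hr1
    linarith
  linarith

/-- digits of scaled coordinates -/
theorem dg_box {x x0 x' : QS S} {a r : ℝ} (ha : 0 ≤ a) (h1 : a + r ≤ 1) (hx : x - x0 = sc S a * x') {A : S.L}
    (h2 : dg x (a + r) ≤ A) (h3 : dg x0 (a + r) ≤ A) : dg x' r ≤ A := by
  rw [← dg_sc_mul x' ha h1, ← hx]
  exact dg_sub_le' _ _ h1 h2 h3

/-- case (i): the coordinate `R'` is not a function of the base point, of `δ` digits and of the label to a precision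
`r > δ` -/
theorem not_known {H : RD S} {f : FR S} {w1 w : ℝ} {Sc : Set ℝ} (hc : C0 H f w1 w Sc) {s : ℝ} (hs : s ∈ Sc)
    (E : ∀ k, (S.F k).Ω → Prop) (hE : 0 < ul (S.pr E)) {δ r : ℝ} (hδ : 0 ≤ δ) (hr : δ < r) (h1 : w1 * s + r ≤ 1)
    {t y R z z0 : QS S}
    (bt : H.t - f.t0 s = sc S s * t) (by' : H.y - f.y0 s = sc S s * y)
    (bR : H.R - (f.r0 s + f.rt s * H.t + f.ry s * H.y) = sc S (w1 * s) * R)
    (hz : dg z0 1 ≤ dg z δ) (g : MvPolynomial (Fin 3) (QS S))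
    (hg : ∀ m, restL E hE (dg (g.coeff m) r) ≤ restL E hE (H.κ s))
    (hR : QS.rest E hE (R - MvPolynomial.eval ![t, y, z0] g) ∈ Id (S.rest E) r) : False := by
  have n0 := hc.nn s hs
  have w1' := hc.hw1
  have n1 : 0 ≤ w1 * s := mul_nonneg (by linarith) n0
  have n2 : s ≤ w1 * s := by nlinarith
  have hr1 : r ≤ 1 := by linarith
  have hsr : s + r ≤ 1 := by linarith
  have hs1 : s ≤ 1 := by linarith
  have a1 := full_R hc hs (by linarith) E hE h1
  -- the label knows the frames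
  have kl : ∀ x : QS S, Lit (H.K s) x → ∀ ρ : ℝ, ρ ≤ 1 → dg x ρ ≤ H.κ s ⊔ H.q := fun x hx ρ hρ =>
    (hx.dg_le (hc.bdd s hs) hρ).trans le_sup_left
  have kt : ∀ ρ : ℝ, ρ ≤ 1 → dg H.t ρ ≤ H.κ s ⊔ H.q := fun ρ hρ =>
    ((dg_mono _ hρ).trans le_sup_left).trans le_sup_right
  have ky : ∀ ρ : ℝ, ρ ≤ 1 → dg H.y ρ ≤ H.κ s ⊔ H.q := fun ρ hρ =>
    ((dg_mono _ hρ).trans le_sup_right).trans le_sup_right
  obtain ⟨l1, l2⟩ := hc.lt s hs
  obtain ⟨l3, l4, l5⟩ := hc.lr s hs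
  have d1 : dg t r ≤ H.κ s ⊔ H.q := dg_box n0 hsr bt (kt _ hsr) (kl _ l1 _ hsr)
  have d2 : dg y r ≤ H.κ s ⊔ H.q := dg_box n0 hsr by' (ky _ hsr) (kl _ l2 _ hsr)
  have d3 : dg (f.r0 s + f.rt s * H.t + f.ry s * H.y) (w1 * s + r) ≤ H.κ s ⊔ H.q :=
    dg_add_le' _ _ h1 (dg_add_le' _ _ h1 (kl _ l3 _ h1) (dg_mul_le' _ _ h1 (kl _ l4 _ h1) (kt _ h1)))
      (dg_mul_le' _ _ h1 (kl _ l5 _ h1) (ky _ h1))
  have d4 : dg H.R (w1 * s + r) ≤ dg R r ⊔ (H.κ s ⊔ H.q) := by
    have e1 : H.R = sc S (w1 * s) * R + (f.r0 s + f.rt s * H.t + f.ry s * H.y) := by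
      rw [← bR]
      ring
    rw [e1]
    refine dg_add_le' _ _ h1 ?_ (d3.trans le_sup_right)
    rw [dg_sc_mul R n1 h1]
    exact le_sup_left
  -- the digits of `R'` on the event
  have e2 : restL E hE (dg R r) ≤ restL E hE (dg z0 r) ⊔ restL E hE (H.κ s ⊔ H.q) := by
    rw [← QS.rest_dg]
    rw [map_sub] at hR
    refine dg_le_of_sub hR le_rfl hr1 ?_
    have e3 : QS.rest E hE (MvPolynomial.eval ![t, y, z0] g) =
        MvPolynomial.eval (fun i => QS.rest E hE (![t, y, z0] i)) (MvPolynomial.map (QS.rest E hE) g) := by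
      rw [MvPolynomial.eval_map]
      exact MvPolynomial.eval₂_comp_left (QS.rest E hE) (RingHom.id _) ![t, y, z0] g
    rw [e3]
    apply eval_coeff_mem (s := QS.Kn (S.rest E) r hr1 (restL E hE (dg z0 r) ⊔ restL E hE (H.κ s ⊔ H.q)))
    · intro m
      rw [MvPolynomial.coeff_map, QS.mem_Kn, QS.rest_dg]
      exact ((hg m).trans (restL_mono E hE le_sup_left)).trans le_sup_right
    · intro i
      rw [QS.mem_Kn, QS.rest_dg]
      fin_cases i
      · exact (restL_mono E hE d1).trans le_sup_right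
      · exact (restL_mono E hE d2).trans le_sup_right
      · exact le_sup_left
  have e4 : restL E hE (dg H.R (w1 * s + r)) ≤ restL E hE (dg z δ) ⊔ restL E hE (H.κ s ⊔ H.q) := by
    refine (restL_mono E hE d4).trans ?_
    rw [restL_sup]
    refine _root_.sup_le (e2.trans ?_) le_sup_right
    refine _root_.sup_le ((restL_mono E hE ((dg_mono _ hr1).trans hz)).trans le_sup_left) le_sup_right
  have e5 : h (restL E hE (dg H.R (w1 * s + r))) (restL E hE (H.κ s ⊔ H.q)) ≤ δ := by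
    refine (h_mono e4).trans ?_
    rw [h_sup_right_of_le le_rfl]
    refine (h_le_H _ _).trans ?_
    rw [← QS.rest_dg]
    exact H_dg_le _ hδ
  linarith

end

end Pool.Agent.Helper32.BF2
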