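import Pool.Agent.Helper32.BF2.Main

/-! ROW B_FLAT2: the case `w = 1 < w1` from FLAT1 for the exchanged structure. -/

set_option autoImplicit false

namespace Pool.Agent.Helper32.BF2

open Pool.Agent.Helper69.RK Pool.Agent.Helper31.EC Pool.Agent.Helper82.TP Pool.Agent.Helper31.NSB

open Sp QS

/-- ROW B_FLAT2 -/
theorem st_flat2 (sw : ST_SWAP) (h1 : ST_FLAT1) : ST_FLAT2 := by
  intro S H f w1 ρ σ Sc hc hu hρ hw1 hz hI hσ hle hσS hd
  have hw0 : 0 < w1 := by linarith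
  have hσ0 : 0 < σ := by
    by_contra hcon
    have h2 : w1 * σ ≤ 0 := mul_nonpos_of_nonneg_of_nonpos hw0.le (not_lt.mp hcon)
    linarith
  obtain ⟨ρ', _, hc'⟩ := sw S H f w1 1 ρ σ Sc hc hu hρ hw1 hz hσ hle hd
  have eB : (swp H).B = H.B := by
    show dg H.t 1 ⊔ dg H.y 1 ⊔ dg H.z 1 ⊔ dg H.R 1 = dg H.t 1 ⊔ dg H.y 1 ⊔ dg H.R 1 ⊔ dg H.z 1
    rw [sup_assoc (dg H.t 1 ⊔ dg H.y 1), sup_comm (dg H.z 1), ← sup_assoc]
  obtain ⟨s, hs, v, ho⟩ := h1 S (swp H) (swf f) w1 ρ' σ Sc hc' (fun s hs => by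
    have h2 := hI s hs
    rw [eB]
    exact h2) hσ0 hσ.le hle hσS hd
  have hv : 0 < v := ho.1
  have hv1 : w1 * s + v ≤ 1 := ho.2.2.1
  have n0 := hc.nn s hs
  have hsσ : s < σ := by
    by_contra hcon
    have h2 : w1 * σ ≤ w1 * s := mul_le_mul_of_nonneg_left (not_lt.mp hcon) hw0.le
    linarith
  obtain ⟨s', hs', h2, h3⟩ := hd s (min (s + v / 2) σ) n0 (lt_min (by linarith) hsσ) (min_le_right _ _)
  have h4 : s' < s + v / 2 := lt_of_lt_of_le h3 (min_le_left _ _)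
  exact ⟨s, hs, s', hs', h2, s' - s, lin_sheet hc hw1 hs hs' h2 (by linarith) ho⟩

end Pool.Agent.Helper32.BF2
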