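import Pool.Agent.Helper32.BF2.Lin

/-! From a linear relation for the untilted coordinate `Z` of `z` over `(t, y, R)` in box coordinates to `OutL`. -/

set_option autoImplicit false

namespace Pool.Agent.Helper32.BF2

open Finset Filter Topology Pool.Agent.Helper69.RK Pool.Agent.Helper31.EC Pool.Agent.Helper82.TP
open Pool.Agent.Helper31.NSB
open Pool.Agent.Helper57.TA (sc)
open Pool.Agent.Helper3.LF (Mon)

noncomputable section

open Sp QS

variable {S : Sp}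

/-- literal functions of a label are literal functions of deeper labels -/
theorem lit_nest {H : RD S} {f : FR S} {w1 w : ℝ} {Sc : Set ℝ} (hc : C0 H f w1 w Sc) {s s' : ℝ} (hs : s ∈ Sc)
    (hs' : s' ∈ Sc) (h : s ≤ s') {x : QS S} (hx : Lit (H.K s) x) : Lit (H.K s') x :=
  hx.of_fun (hc.nest s hs s' hs' h)

theorem lit_A {H : RD S} {s : ℝ} {x : QS S} (hx : Lit (H.K s) x) : Lit (VAs H s) x :=
  hx.of_fun (Eventually.of_forall fun _ _ _ _ _ _ e => congrArg Prod.snd e)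

theorem lit_B {H : RD S} {s : ℝ} {x : QS S} (hx : Lit (H.K s) x) : Lit (VBs H s) x :=
  hx.of_fun (Eventually.of_forall fun _ _ _ _ _ _ e => congrArg Prod.snd e)

theorem nest_A {H : RD S} {f : FR S} {w1 w : ℝ} {Sc : Set ℝ} (hc : C0 H f w1 w Sc) {s s' : ℝ} (hs : s ∈ Sc)
    (hs' : s' ∈ Sc) (h : s ≤ s') {x : QS S} (hx : Lit (VAs H s) x) : Lit (VAs H s') x := by
  refine hx.of_fun ?_
  filter_upwards [hc.nest s hs s' hs' h] with k hk ω ω' h1 h2 h3 e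
  have e' : (H.VA k ω, H.K s' k ω) = (H.VA k ω', H.K s' k ω') := e
  rw [Prod.mk.injEq] at e'
  show (H.VA k ω, H.K s k ω) = (H.VA k ω', H.K s k ω')
  rw [e'.1, hk ω ω' h1 h2 h3 e'.2]

theorem nest_B {H : RD S} {f : FR S} {w1 w : ℝ} {Sc : Set ℝ} (hc : C0 H f w1 w Sc) {s s' : ℝ} (hs : s ∈ Sc)
    (hs' : s' ∈ Sc) (h : s ≤ s') {x : QS S} (hx : Lit (VBs H s) x) : Lit (VBs H s') x := by
  refine hx.of_fun ?_
  filter_upwards [hc.nest s hs s' hs' h] with k hk ω ω' h1 h2 h3 e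
  have e' : (H.VB k ω, H.K s' k ω) = (H.VB k ω', H.K s' k ω') := e
  rw [Prod.mk.injEq] at e'
  show (H.VB k ω, H.K s k ω) = (H.VB k ω', H.K s k ω')
  rw [e'.1, hk ω ω' h1 h2 h3 e'.2]

/-- FINISH: a linear relation for the untilted box coordinate of `z` -/
theorem finish {H : RD S} {f : FR S} {w1 w : ℝ} {Sc : Set ℝ} (hc : C0 H f w1 w Sc) (hw : w ≤ w1) {s s' v r : ℝ}
    (hs : s ∈ Sc) (hs' : s' ∈ Sc) (h01 : s ≤ s') (hv : 0 < v) (h1 : w * s' + v ≤ 1) (hr : w * (s' - s) + v ≤ r)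
    (E : ∀ k, (S.F k).Ω → Prop) (hE : 0 < ul (S.pr E)) {t y R Z : QS S}
    (bt : H.t - f.t0 s = sc S s * t) (by' : H.y - f.y0 s = sc S s * y)
    (bR : H.R - (f.r0 s + f.rt s * H.t + f.ry s * H.y) = sc S (w1 * s) * R)
    (bZ : H.z - ((f.z0 s + f.c s * f.r0 s) + (f.k0 s + f.c s * f.rt s) * H.t +
      (f.k1 s + f.c s * f.ry s) * H.y) = sc S (w * s) * Z) {a b : Fin 4 → QS S}
    (lA : ∀ i, Lit (VAs H s') (a i)) (lB : ∀ i, Lit (VBs H s') (b i)) (hab : ∀ i, a i - b i ∈ IE E hE r)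
    (hZ : Z - (b 0 + b 1 * t + b 2 * y + b 3 * R) ∈ IE E hE r) : OutL H f w1 w 1 s s' v := by
  have n0 := hc.nn s hs
  have hw0 : 0 < w := lt_of_lt_of_le one_pos hc.hw
  have n1 : 0 ≤ (w1 - w) * s := mul_nonneg (by linarith) n0
  have n2 : 0 ≤ w * s := mul_nonneg hw0.le n0
  obtain ⟨la6, la7, la8, la9⟩ := hc.lz s hs
  obtain ⟨cc, hcc⟩ : ∃ cc, cc = f.c s * sc S ((w1 - w) * s) := ⟨_, rfl⟩
  have lcc : Lit (H.K s') cc := by
    rw [hcc]
    exact Lit.mul (lit_nest hc hs hs' h01 la9) (lit_sc _ _)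
  have bz : H.z - (f.z0 s + f.k0 s * H.t + f.k1 s * H.y + f.c s * H.R) = sc S (w * s) * (Z - cc * R) := by
    have e1 : sc S (w1 * s) = sc S (w * s) * sc S ((w1 - w) * s) := by
      rw [← Helper57.TA.sc_add n2 n1]
      congr 1
      ring
    have e2 : sc S (w * s) * (Z - cc * R) = sc S (w * s) * Z - f.c s * (sc S (w1 * s) * R) := by
      rw [e1, hcc]
      ring
    rw [e2, ← bZ, ← bR]
    ring
  refine ⟨hv, h01, h1, E, hE, fun m => (lin (a 0) (a 1) (a 2) (a 3 - cc)).coeff m.ex,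
    fun m => (lin (b 0) (b 1) (b 2) (b 3 - cc)).coeff m.ex, ![t, y, R], ?_, ?_, ?_, ⟨bt, by', bR⟩, ?_⟩
  · intro m
    exact lin_mem (A := LR (VAs H s')) (lA 0) (lA 1) (lA 2) (Lit.sub (lA 3) (lit_A lcc)) m.ex
  · intro m
    exact lin_mem (A := LR (VBs H s')) (lB 0) (lB 1) (lB 2) (Lit.sub (lB 3) (lit_B lcc)) m.ex
  · intro m
    have e := lin_congr (J := IE E hE r) (hab 0) (hab 1) (hab 2) (sub_congr_mod _ (hab 3)
      (show cc - cc ∈ IE E hE r by rw [sub_self]; exact Ideal.zero_mem _)) m.ex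
    exact mem_IE.mp (IE_anti hr e)
  · have e1 : ∑ m : Mon 3 1, (lin (b 0) (b 1) (b 2) (b 3 - cc)).coeff m.ex *
        ∏ i, (![t, y, R] : Fin 3 → QS S) i ^ (m.1 i : ℕ) =
        MvPolynomial.eval ![t, y, R] (lin (b 0) (b 1) (b 2) (b 3 - cc)) :=
      (eval_mon (lin (b 0) (b 1) (b 2) (b 3 - cc)) (lin_deg _ _ _ _) _).symm
    rw [e1, bz, ← mul_sub, map_mul, rest_sc, Helper57.TA.sc_mul_mem_iff n2 h1, lin_eval]
    refine mem_IE.mp (IE_anti (show w * s' + v - w * s ≤ r by linarith) ?_)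
    refine Eq.mp (congrArg (· ∈ IE E hE r) ?_) hZ
    show Z - (b 0 + b 1 * t + b 2 * y + b 3 * R) = Z - cc * R - (b 0 + b 1 * t + b 2 * y + (b 3 - cc) * R)
    ring

end

end Pool.Agent.Helper32.BF2
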