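import Pool.Agent.Helper32.BF2.Box
import Pool.Agent.Helper80.MX.Span
import Pool.Agent.Helper82.TP.Sheet

/-! A literal sheet of `R` over `(t, y, Z)` in the window `s` (case `w = 1 < w1`) gives a linear literal sheet of `z`
over `(t, y, R)` beyond the box of the windows `s' > s` near `s`. -/

set_option autoImplicit false

namespace Pool.Agent.Helper32.BF2

open Finset Filter Topology Pool.Agent.Helper69.RK Pool.Agent.Helper31.EC Pool.Agent.Helper82.TP
open Pool.Agent.Helper31.NSB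
open Pool.Agent.Helper57.TA (sc)

noncomputable section

open Sp QS

variable {S : Sp}

/-- products of ideals of small functions -/
theorem Id_mul_le {δ δ' : ℝ} (h : δ ≤ 1) (h' : δ' ≤ 1) : Id S δ * Id S δ' ≤ Id S (δ + δ') := by
  rw [Ideal.mul_le]
  intro a ha b hb
  exact Helper80.MX.Id_mul h h' ha hb

/-- functions which are small on an event -/
def IE (E : ∀ k, (S.F k).Ω → Prop) (hE : 0 < ul (S.pr E)) (r : ℝ) : Ideal (QS S) :=
  (Id (S.rest E) r).comap (QS.rest E hE)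

theorem mem_IE {E : ∀ k, (S.F k).Ω → Prop} {hE : 0 < ul (S.pr E)} {r : ℝ} {f : QS S} :
    f ∈ IE E hE r ↔ QS.rest E hE f ∈ Id (S.rest E) r := Ideal.mem_comap

theorem Id_le_IE (E : ∀ k, (S.F k).Ω → Prop) (hE : 0 < ul (S.pr E)) (r : ℝ) : Id S r ≤ IE E hE r := fun _ hf =>
  mem_IE.mpr (rest_mem_Id E hE hf)

theorem IE_anti {E : ∀ k, (S.F k).Ω → Prop} {hE : 0 < ul (S.pr E)} {r s : ℝ} (h : s ≤ r) : IE E hE r ≤ IE E hE s :=
  fun _ hf => mem_IE.mpr (Id_anti h (mem_IE.mp hf))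

theorem IE_sub {E E1 : ∀ k, (S.F k).Ω → Prop} (hE : 0 < ul (S.pr E)) (hE1 : 0 < ul (S.pr E1))
    (hs : ∀ k ω, E1 k ω → E k ω) (r : ℝ) : IE E hE r ≤ IE E1 hE1 r := fun _ hf =>
  mem_IE.mpr (mem_sub hE hE1 hs (mem_IE.mp hf))

/-- the linear polynomial -/
def lin (l0 l1 l2 l3 : QS S) : MvPolynomial (Fin 3) (QS S) :=
  MvPolynomial.monomial 0 l0 + MvPolynomial.monomial (Finsupp.single 0 1) l1 +
    MvPolynomial.monomial (Finsupp.single 1 1) l2 + MvPolynomial.monomial (Finsupp.single 2 1) l3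

theorem lin_deg (l0 l1 l2 l3 : QS S) : (lin l0 l1 l2 l3).totalDegree ≤ 1 := by
  have h0 : (MvPolynomial.monomial (0 : Fin 3 →₀ ℕ) l0).totalDegree ≤ 1 := by
    refine (MvPolynomial.totalDegree_monomial_le _ _).trans ?_
    simp
  have h1 : ∀ (a : QS S) (i : Fin 3), (MvPolynomial.monomial (Finsupp.single i 1) a).totalDegree ≤ 1 := by
    intro a i
    refine (MvPolynomial.totalDegree_monomial_le _ _).trans ?_
    simp
  unfold lin
  refine (MvPolynomial.totalDegree_add _ _).trans (max_le ?_ (h1 _ _))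
  refine (MvPolynomial.totalDegree_add _ _).trans (max_le ?_ (h1 _ _))
  exact (MvPolynomial.totalDegree_add _ _).trans (max_le h0 (h1 _ _))

theorem lin_eval (l0 l1 l2 l3 : QS S) (x : Fin 3 → QS S) :
    MvPolynomial.eval x (lin l0 l1 l2 l3) = l0 + l1 * x 0 + l2 * x 1 + l3 * x 2 := by
  unfold lin
  simp only [map_add, MvPolynomial.eval_monomial]
  simp

theorem lin_coeff (l0 l1 l2 l3 : QS S) (m : Fin 3 →₀ ℕ) : (lin l0 l1 l2 l3).coeff m =
    (if 0 = m then l0 else 0) + (if Finsupp.single 0 1 = m then l1 else 0) +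
      (if Finsupp.single 1 1 = m then l2 else 0) + (if Finsupp.single 2 1 = m then l3 else 0) := by
  unfold lin
  simp only [MvPolynomial.coeff_add, MvPolynomial.coeff_monomial]

theorem lin_mem {A : Subring (QS S)} {l0 l1 l2 l3 : QS S} (h0 : l0 ∈ A) (h1 : l1 ∈ A) (h2 : l2 ∈ A) (h3 : l3 ∈ A)
    (m : Fin 3 →₀ ℕ) : (lin l0 l1 l2 l3).coeff m ∈ A := by
  have hi : ∀ (P : Prop) [Decidable P] (l : QS S), l ∈ A → (if P then l else 0) ∈ A := by
    intro P _ l hl
    split_ifs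
    · exact hl
    · exact A.zero_mem
  rw [lin_coeff]
  exact A.add_mem (A.add_mem (A.add_mem (hi _ _ h0) (hi _ _ h1)) (hi _ _ h2)) (hi _ _ h3)

theorem lin_congr {J : Ideal (QS S)} {l0 l1 l2 l3 k0 k1 k2 k3 : QS S} (h0 : l0 - k0 ∈ J) (h1 : l1 - k1 ∈ J)
    (h2 : l2 - k2 ∈ J) (h3 : l3 - k3 ∈ J) (m : Fin 3 →₀ ℕ) :
    (lin l0 l1 l2 l3).coeff m - (lin k0 k1 k2 k3).coeff m ∈ J := by
  have hi : ∀ (P : Prop) [Decidable P] (l k : QS S), l - k ∈ J → (if P then l else 0) - (if P then k else 0) ∈ J := by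
    intro P _ l k hl
    split_ifs
    · exact hl
    · rw [sub_zero]
      exact J.zero_mem
  rw [lin_coeff, lin_coeff]
  have h := J.add_mem (J.add_mem (J.add_mem (hi (0 = m) _ _ h0) (hi (Finsupp.single 0 1 = m) _ _ h1))
    (hi (Finsupp.single 1 1 = m) _ _ h2)) (hi (Finsupp.single 2 1 = m) _ _ h3)
  refine Eq.mp (congrArg (· ∈ J) ?_) h
  ring

/-- literal centres of the deeper window in box coordinates -/
theorem center {β : ℕ → Type} {V : ∀ k, (S.F k).Ω → β k} {x x0 x1 x' : QS S} {s s' : ℝ} (h0 : 0 ≤ s) (h1 : s ≤ s')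
    (h2 : s' ≤ 1) (hx : x - x0 = sc S s * x') (hx1 : x - x1 ∈ Id S s') (l0 : Lit V x0) (l1 : Lit V x1) :
    ∃ c : QS S, Lit V c ∧ x' - c ∈ Id S (s' - s) := by
  have hs1 : s ≤ 1 := h1.trans h2
  have a1 : x1 - x0 ∈ Id S s := by
    have e : x1 - x0 = sc S s * x' - (x - x1) := by
      rw [← hx]
      ring
    rw [e]
    exact (Id S s).sub_mem ((Id S s).mul_mem_right _ (Helper57.TA.sc_mem h0)) (Id_anti h1 hx1)
  obtain ⟨c, hc, lc⟩ := exists_div h0 hs1 a1 (l1.sub l0)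
  refine ⟨c, lc, ?_⟩
  rw [← Helper57.TA.sc_mul_mem_iff h0 h2]
  have e : sc S s * (x' - c) = x - x1 := by
    rw [mul_sub, ← hx, ← hc]
    ring
  rw [e]
  exact hx1

end

end Pool.Agent.Helper32.BF2
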