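import Pool.Agent.Helper32.BF2.Fns

/-! CASE `w = 1 < w1` (B(3')): a literal sheet of `R` over `(t, y, Z)` in the window `s` gives a linear literal sheet
of `z` over `(t, y, R)` beyond the boxes of the windows `s' > s` near `s`. -/

set_option autoImplicit false

namespace Pool.Agent.Helper32.BF2

open Finset Filter Topology Pool.Agent.Helper69.RK Pool.Agent.Helper31.EC Pool.Agent.Helper82.TP
open Pool.Agent.Helper31.NSB
open Pool.Agent.Helper57.TA (sc)
open Pool.Agent.Helper3.LF (Mon)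
open MvPolynomial (pderiv)

noncomputable section

open Sp QS

variable {S : Sp}

/-- the derivative of the sheet of `R` in the direction `Z` is not small on any event -/
theorem contra {H : RD S} {f : FR S} {w1 w : ℝ} {Sc : Set ℝ} (hc : C0 H f w1 w Sc) {s : ℝ} (hs : s ∈ Sc)
    {E E1 : ∀ k, (S.F k).Ω → Prop} (hE : 0 < ul (S.pr E)) (hE1 : 0 < ul (S.pr E1)) (hs1 : ∀ k ω, E1 k ω → E k ω)
    {δ v : ℝ} (hδ : 0 < δ) (hv : 2 * δ ≤ v) (h1 : w1 * s + v ≤ 1) {t y R z : QS S}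
    (bt : H.t - f.t0 s = sc S s * t) (by' : H.y - f.y0 s = sc S s * y)
    (bR : H.R - (f.r0 s + f.rt s * H.t + f.ry s * H.y) = sc S (w1 * s) * R)
    (gA gB : MvPolynomial (Fin 3) (QS S))
    (lA : ∀ m, Lit (fun k ω => (H.VA k ω, H.K s k ω)) (gA.coeff m))
    (lB : ∀ m, Lit (fun k ω => (H.VB k ω, H.K s k ω)) (gB.coeff m))
    (hAB : ∀ m, gA.coeff m - gB.coeff m ∈ IE E hE v) (hsh : R - MvPolynomial.eval ![t, y, z] gB ∈ IE E hE v)
    (q : Fin 3 → QS S) (hq : ∀ i, ![t, y, z] i - q i ∈ Id S δ) {b : ℝ} (hb : 0 < b)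
    (hsm : MvPolynomial.eval q (pderiv 2 gB) ∈ IE E1 hE1 b) : False := by
  have n0 := hc.nn s hs
  have w1' := hc.hw1
  have n1 : 0 ≤ w1 * s := mul_nonneg (by linarith) n0
  set b' : ℝ := min b δ with hb'
  have b0 : 0 < b' := lt_min hb hδ
  have b1 : b' ≤ δ := min_le_right _ _
  have hδ1 : δ ≤ 1 := by linarith
  obtain ⟨z0, hz0, hz1⟩ := exists_round z hδ.le hδ1
  have hq' : ∀ i, ![t, y, z0] i - q i ∈ Id S δ := by
    intro i
    fin_cases i
    · exact hq 0
    · exact hq 1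
    · have e : z0 - q 2 = (z - q 2) - (z - z0) := by ring
      show z0 - q 2 ∈ Id S δ
      rw [e]
      exact (Id S δ).sub_mem (hq 2) hz1
  have hx : ∀ i, ![t, y, z] i - ![t, y, z0] i ∈ Id S δ := by
    intro i
    fin_cases i
    · show t - t ∈ Id S δ
      rw [sub_self]
      exact (Id S δ).zero_mem
    · show y - y ∈ Id S δ
      rw [sub_self]
      exact (Id S δ).zero_mem
    · exact hz1
  -- the derivative at the rounded point
  have d1 : MvPolynomial.eval ![t, y, z0] (pderiv 2 gB) ∈ IE E1 hE1 b' := by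
    have e := (taylor (Id S δ) ![t, y, z0] q hq' (pderiv 2 gB)).1
    have e1 : MvPolynomial.eval ![t, y, z0] (pderiv 2 gB) =
        (MvPolynomial.eval ![t, y, z0] (pderiv 2 gB) - MvPolynomial.eval q (pderiv 2 gB)) +
          MvPolynomial.eval q (pderiv 2 gB) := by ring
    rw [e1]
    exact (IE E1 hE1 b').add_mem (Id_le_IE E1 hE1 b' (Id_anti b1 e)) (IE_anti (min_le_left _ _) hsm)
  -- the rounded sheet
  have d2 : R - MvPolynomial.eval ![t, y, z0] gB ∈ IE E1 hE1 (b' + δ) := by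
    have e := (taylor (Id S δ) ![t, y, z] ![t, y, z0] hx gB).2
    have e0 := Id_le_IE E1 hE1 _ (Id_mul_le hδ1 hδ1 e)
    have e1 : ∑ i, MvPolynomial.eval ![t, y, z0] (pderiv i gB) * (![t, y, z] i - ![t, y, z0] i) =
        MvPolynomial.eval ![t, y, z0] (pderiv 2 gB) * (z - z0) := by
      rw [Fin.sum_univ_three]
      show _ * (t - t) + _ * (y - y) + _ * (z - z0) = _
      ring
    rw [e1] at e0
    have e2 : MvPolynomial.eval ![t, y, z0] (pderiv 2 gB) * (z - z0) ∈ IE E1 hE1 (b' + δ) := by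
      rw [mem_IE, map_mul]
      exact Helper80.MX.Id_mul (by linarith) hδ1 (mem_IE.mp d1) (rest_mem_Id E1 hE1 hz1)
    have e3 : R - MvPolynomial.eval ![t, y, z0] gB = (R - MvPolynomial.eval ![t, y, z] gB) +
        ((MvPolynomial.eval ![t, y, z] gB - MvPolynomial.eval ![t, y, z0] gB -
          MvPolynomial.eval ![t, y, z0] (pderiv 2 gB) * (z - z0)) +
        MvPolynomial.eval ![t, y, z0] (pderiv 2 gB) * (z - z0)) := by ring
    rw [e3]
    refine (IE E1 hE1 (b' + δ)).add_mem ?_ ((IE E1 hE1 (b' + δ)).add_mem (IE_anti (by linarith) e0) e2)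
    exact IE_anti (by linarith) (IE_sub hE hE1 hs1 v hsh)
  -- the coefficients are known
  have d3 : ∀ m, restL E1 hE1 (dg (gB.coeff m) (b' + δ)) ≤ restL E1 hE1 (H.κ s) := by
    intro m
    have e := hc.agr s hs s hs le_rfl E1 hE1 (gA.coeff m) (gB.coeff m) v (by linarith) (by linarith) (lA m) (lB m)
      (mem_IE.mp (IE_sub hE hE1 hs1 v (hAB m)))
    exact (restL_mono E1 hE1 (dg_mono _ (by linarith))).trans e
  exact not_known hc hs E1 hE1 hδ.le (show δ < b' + δ by linarith) (by linarith) bt by' bR hz0 gB d3 (mem_IE.mp d2)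

/-- MAIN STEP of the case `w = 1 < w1`. -/
theorem lin_sheet {H : RD S} {f : FR S} {w1 : ℝ} {Sc : Set ℝ} (hc : C0 H f w1 1 Sc) (hw1 : 1 < w1) {s s' v : ℝ}
    (hs : s ∈ Sc) (hs' : s' ∈ Sc) (h01 : s < s') (hv : 2 * (s' - s) ≤ v) {D : ℕ}
    (ho : OutL (swp H) (swf f) 1 w1 D s s v) : OutL H f w1 1 1 s s' (s' - s) := by
  obtain ⟨_, _, h1, E, hE, cA, cB, gg, lA, lB, hAB, hbx, hsh⟩ := ho
  obtain ⟨t, ht⟩ : ∃ t, t = gg 0 := ⟨_, rfl⟩
  obtain ⟨y, hy⟩ : ∃ y, y = gg 1 := ⟨_, rfl⟩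
  obtain ⟨Z, hZ⟩ : ∃ Z, Z = gg 2 := ⟨_, rfl⟩
  have egg : gg = ![t, y, Z] := by
    funext i
    fin_cases i
    · exact ht.symm
    · exact hy.symm
    · exact hZ.symm
  have n0 := hc.nn s hs
  have n2 : 0 ≤ w1 * s := mul_nonneg (by linarith) n0
  have hs1 : s' ≤ 1 := by nlinarith
  have ev : w1 * (s - s) + v = v := by ring
  have bt : H.t - f.t0 s = sc S s * t := by
    rw [ht]
    exact hbx.1
  have by' : H.y - f.y0 s = sc S s * y := by
    rw [hy]
    exact hbx.2.1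
  have bZ : H.z - ((f.z0 s + f.c s * f.r0 s) + (f.k0 s + f.c s * f.rt s) * H.t +
      (f.k1 s + f.c s * f.ry s) * H.y) = sc S (1 * s) * Z := by
    rw [hZ]
    exact hbx.2.2
  obtain ⟨R, bR⟩ : ∃ R : QS S, H.R - (f.r0 s + f.rt s * H.t + f.ry s * H.y) = sc S (w1 * s) * R :=
    exists_div' n2 (by nlinarith) (hc.frR s hs)
  set gA : MvPolynomial (Fin 3) (QS S) := cpol cA with hgA
  set gB : MvPolynomial (Fin 3) (QS S) := cpol cB with hgB
  have hAB' : ∀ m, gA.coeff m - gB.coeff m ∈ IE E hE v := cpol_congr fun a => by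
    have e := hAB a
    rw [ev] at e
    exact mem_IE.mpr e
  have hsh' : R - MvPolynomial.eval ![t, y, Z] gB ∈ IE E hE v := by
    rw [mem_IE]
    have e : H.R - (f.r0 s + f.rt s * H.t + f.ry s * H.y + 0 * H.z) -
        sc S (w1 * s) * ∑ a, cB a * ∏ i, gg i ^ (a.1 i : ℕ) =
        sc S (w1 * s) * (R - MvPolynomial.eval ![t, y, Z] gB) := by
      rw [hgB, cpol_eval, mul_sub, ← bR, egg]
      ring
    have e1 : QS.rest E hE (H.R - (f.r0 s + f.rt s * H.t + f.ry s * H.y + 0 * H.z) -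
        sc S (w1 * s) * ∑ a, cB a * ∏ i, gg i ^ (a.1 i : ℕ)) ∈ Id (S.rest E) (w1 * s + v) := hsh
    rw [e, map_mul, rest_sc, Helper57.TA.sc_mul_mem_iff n2 h1] at e1
    exact Id_anti (by linarith) e1
  have lA' : ∀ m, Lit (fun k ω => (H.VA k ω, H.K s k ω)) (gA.coeff m) := fun m =>
    cpol_mem (B := LR (VAs H s)) (fun a => lA a) m
  have lB' : ∀ m, Lit (fun k ω => (H.VB k ω, H.K s k ω)) (gB.coeff m) := fun m =>
    cpol_mem (B := LR (VBs H s)) (fun a => lB a) m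
  -- the centres
  have l1 : ∀ x : QS S, Lit (H.K s) x → Lit (H.K s') x := fun x hx => lit_nest hc hs hs' h01.le hx
  obtain ⟨la1, la2⟩ := hc.lt s hs
  obtain ⟨lb1, lb2⟩ := hc.lt s' hs'
  obtain ⟨la3, la4, la5⟩ := hc.lr s hs
  obtain ⟨lb3, lb4, lb5⟩ := hc.lr s' hs'
  obtain ⟨la6, la7, la8, la9⟩ := hc.lz s hs
  obtain ⟨lb6, lb7, lb8, lb9⟩ := hc.lz s' hs'
  obtain ⟨tc, ltc, htc⟩ := center n0 h01.le hs1 bt (hc.ft s' hs').1 (l1 _ la1) lb1
  obtain ⟨yc, lyc, hyc⟩ := center n0 h01.le hs1 by' (hc.fy s' hs').1 (l1 _ la2) lb2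
  have hZc : ∃ Zc : QS S, Lit (H.K s') Zc ∧ Z - Zc ∈ Id S (s' - s) := by
    set F : QS S := (f.z0 s + f.c s * f.r0 s) + (f.k0 s + f.c s * f.rt s) * f.t0 s' +
      (f.k1 s + f.c s * f.ry s) * f.y0 s' with hF
    set F' : QS S := (f.z0 s' + f.c s' * f.r0 s') + (f.k0 s' + f.c s' * f.rt s') * f.t0 s' +
      (f.k1 s' + f.c s' * f.ry s') * f.y0 s' with hF'
    have lF : Lit (H.K s') F := Lit.add (Lit.add (Lit.add (l1 _ la6) (Lit.mul (l1 _ la9) (l1 _ la3)))
      (Lit.mul (Lit.add (l1 _ la7) (Lit.mul (l1 _ la9) (l1 _ la4))) lb1))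
      (Lit.mul (Lit.add (l1 _ la8) (Lit.mul (l1 _ la9) (l1 _ la5))) lb2)
    have lF' : Lit (H.K s') F' := Lit.add (Lit.add (Lit.add lb6 (Lit.mul lb9 lb3))
      (Lit.mul (Lit.add lb7 (Lit.mul lb9 lb4)) lb1)) (Lit.mul (Lit.add lb8 (Lit.mul lb9 lb5)) lb2)
    refine center (x := sc S s * Z + F) (x0 := F) (x1 := F') n0 h01.le hs1 (by ring) ?_ lF lF'
    have e1 := (hc.ft s' hs').1
    have e2 := (hc.fy s' hs').1
    have e3 := Id_anti (show s' ≤ w1 * s' by nlinarith) (hc.frR s' hs')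
    have e4 := hc.frZ s' hs'
    rw [one_mul] at e4
    rw [one_mul] at bZ
    have e : sc S s * Z + F - F' = (H.z - (f.z0 s' + f.k0 s' * H.t + f.k1 s' * H.y + f.c s' * H.R)) +
        f.c s' * (H.R - (f.r0 s' + f.rt s' * H.t + f.ry s' * H.y)) +
        ((f.k0 s' + f.c s' * f.rt s') - (f.k0 s + f.c s * f.rt s)) * (H.t - f.t0 s') +
        ((f.k1 s' + f.c s' * f.ry s') - (f.k1 s + f.c s * f.ry s)) * (H.y - f.y0 s') := by
      rw [← bZ, hF, hF']
      ring
    rw [e]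
    exact (Id S s').add_mem ((Id S s').add_mem ((Id S s').add_mem e4 ((Id S s').mul_mem_left _ e3))
      ((Id S s').mul_mem_left _ e1)) ((Id S s').mul_mem_left _ e2)
  obtain ⟨Zc, lZc, hZc⟩ := hZc
  set q : Fin 3 → QS S := ![tc, yc, Zc] with hq
  have hq' : ∀ i, ![t, y, Z] i - q i ∈ Id S (s' - s) := by
    intro i
    fin_cases i
    · exact htc
    · exact hyc
    · exact hZc
  have lq : ∀ i, Lit (H.K s') (q i) := by
    intro i
    fin_cases i
    · exact ltc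
    · exact lyc
    · exact lZc
  have hδ : 0 < s' - s := by linarith
  have hcon : ∀ (E1 : ∀ k, (S.F k).Ω → Prop) (hE1 : 0 < ul (S.pr E1)) (b : ℝ), 0 < b → (∀ k ω, E1 k ω → E k ω) →
      MvPolynomial.eval q (pderiv 2 gB) ∈ IE E1 hE1 b → False := fun E1 hE1 b hb hsub hsm =>
    contra hc hs hE hE1 hsub hδ hv h1 bt by' bR gA gB lA' lB' hAB' hsh' q hq' hb hsm
  -- congruences of the derivatives
  have cg : ∀ i, MvPolynomial.eval q (pderiv i gA) - MvPolynomial.eval q (pderiv i gB) ∈ IE E hE v := fun i =>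
    eval_congr_mod _ (pderiv_congr_mod _ hAB' i) q
  have cg0 : MvPolynomial.eval q gA - MvPolynomial.eval q gB ∈ IE E hE v := eval_congr_mod _ hAB' q
  -- units
  have uB : IsUnit (QS.rest E hE (MvPolynomial.eval q (pderiv 2 gB))) := by
    rcases unit_or_small E hE (MvPolynomial.eval q (pderiv 2 gB)) with h | ⟨b, E1, hE1, hb, hsub, hsm⟩
    · exact h
    · exact (hcon E1 hE1 b hb hsub (mem_IE.mpr hsm)).elim
  have uA : IsUnit (QS.rest E hE (MvPolynomial.eval q (pderiv 2 gA))) := by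
    rcases unit_or_small E hE (MvPolynomial.eval q (pderiv 2 gA)) with h | ⟨b, E1, hE1, hb, hsub, hsm⟩
    · exact h
    · refine (hcon E1 hE1 (min b v) (lt_min hb (by linarith)) hsub ?_).elim
      have e : MvPolynomial.eval q (pderiv 2 gB) = MvPolynomial.eval q (pderiv 2 gA) -
          (MvPolynomial.eval q (pderiv 2 gA) - MvPolynomial.eval q (pderiv 2 gB)) := by ring
      rw [e]
      exact (IE E1 hE1 (min b v)).sub_mem (IE_anti (min_le_left _ _) (mem_IE.mpr hsm))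
        (IE_anti (min_le_right _ _) (IE_sub hE hE1 hsub v (cg 2)))
  -- literal functions of the line, of the point
  have qA : ∀ i, q i ∈ LR (VAs H s') := fun i => lit_A (lq i)
  have qB : ∀ i, q i ∈ LR (VBs H s') := fun i => lit_B (lq i)
  have gA' : ∀ m, gA.coeff m ∈ LR (VAs H s') := fun m => nest_A hc hs hs' h01.le (lA' m)
  have gB' : ∀ m, gB.coeff m ∈ LR (VBs H s') := fun m => nest_B hc hs hs' h01.le (lB' m)
  have dA : ∀ i, MvPolynomial.eval q (pderiv i gA) ∈ LR (VAs H s') := fun i =>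
    eval_coeff_mem (pderiv_coeff_mem gA' i) qA
  have dB : ∀ i, MvPolynomial.eval q (pderiv i gB) ∈ LR (VBs H s') := fun i =>
    eval_coeff_mem (pderiv_coeff_mem gB' i) qB
  have dA0 : MvPolynomial.eval q gA ∈ LR (VAs H s') := eval_coeff_mem gA' qA
  have dB0 : MvPolynomial.eval q gB ∈ LR (VBs H s') := eval_coeff_mem gB' qB
  obtain ⟨a, la, ha⟩ := lit_inv E hE (dA 2) uA
  obtain ⟨b, lb, hb⟩ := lit_inv E hE (dB 2) uB
  have ia : ∀ r : ℝ, 1 - a * MvPolynomial.eval q (pderiv 2 gA) ∈ IE E hE r := fun r => by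
    rw [mem_IE, map_sub, map_mul, ha, map_one, sub_self]
    exact Ideal.zero_mem _
  have ib : ∀ r : ℝ, 1 - b * MvPolynomial.eval q (pderiv 2 gB) ∈ IE E hE r := fun r => by
    rw [mem_IE, map_sub, map_mul, hb, map_one, sub_self]
    exact Ideal.zero_mem _
  have hab : a - b ∈ IE E hE v := inv_congr_mod _ (cg 2) (ia v) (ib v)
  -- the sheet
  have hsol := solve (Id S (s' - s)) (IE E hE (2 * (s' - s))) ((Id_mul_le (by linarith) (by linarith)).trans
    ((Id_le_IE E hE _).trans (IE_anti (by linarith)))) ![t, y, Z] q hq' gB R b (IE_anti hv hsh') (ib _)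
  have hz : ∀ x : QS S, x - x ∈ IE E hE v := fun x => by
    rw [sub_self]
    exact Ideal.zero_mem _
  have n1 : 0 ≤ (w1 - 1) * s := mul_nonneg (by linarith) n0
  refine finish hc (by linarith) hs hs' h01.le hδ (by linarith) (show 1 * (s' - s) + (s' - s) ≤ 2 * (s' - s) by linarith)
    E hE bt by' bR bZ
    (a := ![q 2 - a * (MvPolynomial.eval q gA - MvPolynomial.eval q (pderiv 0 gA) * q 0 -
      MvPolynomial.eval q (pderiv 1 gA) * q 1), -(a * MvPolynomial.eval q (pderiv 0 gA)),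
      -(a * MvPolynomial.eval q (pderiv 1 gA)), a])
    (b := ![q 2 - b * (MvPolynomial.eval q gB - MvPolynomial.eval q (pderiv 0 gB) * q 0 -
      MvPolynomial.eval q (pderiv 1 gB) * q 1), -(b * MvPolynomial.eval q (pderiv 0 gB)),
      -(b * MvPolynomial.eval q (pderiv 1 gB)), b]) ?_ ?_ ?_ ?_
  · intro i
    fin_cases i
    · exact (LR (VAs H s')).sub_mem (qA 2) ((LR (VAs H s')).mul_mem la ((LR (VAs H s')).sub_mem
        ((LR (VAs H s')).sub_mem dA0 ((LR (VAs H s')).mul_mem (dA 0) (qA 0))) ((LR (VAs H s')).mul_mem (dA 1) (qA 1))))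
    · exact (LR (VAs H s')).neg_mem ((LR (VAs H s')).mul_mem la (dA 0))
    · exact (LR (VAs H s')).neg_mem ((LR (VAs H s')).mul_mem la (dA 1))
    · exact la
  · intro i
    fin_cases i
    · exact (LR (VBs H s')).sub_mem (qB 2) ((LR (VBs H s')).mul_mem lb ((LR (VBs H s')).sub_mem
        ((LR (VBs H s')).sub_mem dB0 ((LR (VBs H s')).mul_mem (dB 0) (qB 0))) ((LR (VBs H s')).mul_mem (dB 1) (qB 1))))
    · exact (LR (VBs H s')).neg_mem ((LR (VBs H s')).mul_mem lb (dB 0))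
    · exact (LR (VBs H s')).neg_mem ((LR (VBs H s')).mul_mem lb (dB 1))
    · exact lb
  · intro i
    fin_cases i
    · exact IE_anti hv (sub_congr_mod _ (hz (q 2)) (mul_congr_mod _ hab (sub_congr_mod _ (sub_congr_mod _ cg0
        (mul_congr_mod _ (cg 0) (hz (q 0)))) (mul_congr_mod _ (cg 1) (hz (q 1))))))
    · exact IE_anti hv (neg_congr_mod _ (mul_congr_mod _ hab (cg 0)))
    · exact IE_anti hv (neg_congr_mod _ (mul_congr_mod _ hab (cg 1)))
    · exact IE_anti hv hab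
  · exact hsol

end

end Pool.Agent.Helper32.BF2
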